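import Pool.Agent.Q259.RM.Asy3

/-!
Tail bound for one sum.
-/

set_option autoImplicit false

namespace Pool.Agent.Q259.RM

open Finset Filter

variable {k l : ℕ}

open Classical in
theorem tail_asy (k A M : ℕ) (hA : 2 ≤ A) (θ : ℕ → ℝ) (hθ : ∀ p, 0 ≤ θ p ∧ θ p ≤ 1)
    (R : ℕ → ℝ) (hRl : ∀ᶠ N : ℕ in atTop, Real.log N ≤ R N)
    (hS : Tendsto (fun N : ℕ => ∑ p ∈ PI (R N) N, dl θ p / p) atTop atTop)
    : ∃ C : ℝ, 0 < C ∧ ∀ᶠ N : ℕ in atTop, ∀ (l x : ℕ) (a b : Fin k → ℤ) (c d : Fin l → ℤ)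
      (j₀ : Fin l) (u : ℕ → ℂ), x ≤ N → (l : ℝ) ≤ R N ^ A →
      (∀ i, a i ≠ 0 ∧ |a i| ≤ (N : ℤ) ^ A ∧ |b i| ≤ (N : ℤ) ^ A) →
      (∀ j, c j ≠ 0 ∧ |c j| ≤ (HN R A N : ℤ) ∧ |d j| ≤ (HN R A N : ℤ)) →
      RR a b c d j₀ ≠ 0 → (∀ n ∈ Icc 1 x, ‖u n‖ ≤ vL a b n) →
      Ex θ (PP (wN R (2 * k + 3 * A + M + 8) N) (HN R A N * (N + 1)) c)
        (fun T => if C * N * AF (disc a b) ^ k * Real.exp (-(∑ p ∈ PI (R N) N, dl θ p / p)) <
          ‖FF u c d x T‖ then 1 else 0) ≤ Real.exp (-(R N ^ M)) := by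
  set B := 2 * k + 3 * A + M + 8 with hB
  obtain ⟨C1, hC1, hmean0⟩ := mean_asy k A B hA (by omega) θ hθ R hRl
  obtain ⟨C2, hC2, hSle⟩ := S_le
  set c9 : ℝ := (C1 * Real.exp (-C2)) ^ 2 / (96 * (A + 2) ^ (2 * k)) with hc9
  have hc90 : 0 < c9 := by rw [hc9]; positivity
  refine ⟨4 * C1, by positivity, ?_⟩
  filter_upwards [hmean0, hSle R θ hθ hRl,
    w_props hRl B (by omega) 1, eventually_ge_atTop 2, ev_log 3, ev_log (1 / c9),
    R_small hθ hRl hS B, hRl, H_props hRl A hA]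
    with N hmean hSN hw hN2 hL3 hLc hRN hRL hH l x a b c d j₀ u hx hl ha hc hR hu
  obtain ⟨hw1, hw2, hwk, -, -, -, -⟩ := hw
  obtain ⟨hH1, hHR, hNH, -⟩ := hH
  set L := Real.log N with hLd
  set Rr := R N with hRd
  set SN := ∑ p ∈ PI Rr N, dl θ p / p with hSNd
  set ES := Real.exp (-SN) with hES
  have hES0 : 0 < ES := Real.exp_pos _
  set w := wN R B N with hwd
  set V := 2 * N ^ (A + 1) with hVd
  set Vf := HN R A N * (N + 1) with hVfd
  have hNp : (0 : ℝ) < N := by exact_mod_cast (by omega : 0 < N)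
  have hN1 : 1 ≤ N := by omega
  have hV1 : 1 ≤ V := by
    have : 0 < N ^ (A + 1) := by positivity
    omega
  have hw0 : 0 < w := by
    have : (0 : ℝ) < w := by linarith
    exact_mod_cast this
  have hw' : (0 : ℝ) < w := by exact_mod_cast hw0
  have hL0 : (0 : ℝ) < L := by linarith
  have hL1 : (1 : ℝ) ≤ L := by linarith
  have hR1 : (1 : ℝ) ≤ Rr := by linarith
  have hR0 : (0 : ℝ) < Rr := by linarith
  have hRA : Rr ≤ Rr ^ A := by
    calc Rr = Rr ^ 1 := (pow_one Rr).symm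
      _ ≤ Rr ^ A := pow_le_pow_right₀ hR1 (by omega)
  have hD0 : disc a b ≠ 0 := by
    intro h
    apply hR
    unfold RR
    rw [h, zero_mul, zero_mul]
  set D := AF (disc a b) with hDd
  have hD1 : 1 ≤ D := AF_one hD0
  have hDk1 : 1 ≤ D ^ k := one_le_pow₀ hD1
  set U := Real.log V ^ k with hU
  have hlogV0 : 0 ≤ Real.log V := Real.log_nonneg (by exact_mod_cast hV1)
  have hU0 : 0 ≤ U := pow_nonneg hlogV0 _
  have hUle : U ≤ ((A + 2) * Rr) ^ k := by
    refine (pow_le_pow_left₀ hlogV0 (logV_le hN2) k).trans ?_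
    apply pow_le_pow_left₀ (by positivity)
    exact mul_le_mul_of_nonneg_left hRL (by positivity)
  have hVf0 : Vf ≠ 0 := by
    rw [hVfd]
    positivity
  have hlog2V : (Nat.log 2 Vf : ℝ) ≤ 6 * Rr ^ A := by
    have h1 := natlog_le (m := Vf) hVf0
    have h2 : Real.log Vf ≤ Rr ^ A + 2 * L := by
      rw [hVfd]
      push_cast
      have hHp : (0 : ℝ) < HN R A N := by exact_mod_cast hH1
      rw [Real.log_mul hHp.ne' (by positivity)]
      have h3 : Real.log ((N : ℝ) + 1) ≤ 2 * L := by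
        have h4 : (N : ℝ) + 1 ≤ (N : ℝ) ^ 2 := by
          have : (2 : ℝ) ≤ N := by exact_mod_cast hN2
          nlinarith
        have h5 := Real.log_le_log (by positivity) h4
        rw [Real.log_pow] at h5
        exact_mod_cast h5
      linarith
    linarith
  have hx' : (x : ℝ) ≤ N := by exact_mod_cast hx
  -- the size of the weights
  have hUu : ∀ n ∈ Icc 1 x, ‖u n‖ ≤ U := fun n hn =>
    (hu n hn).trans (vL_le hV1 (fun i => form_le hN1 hx (ha i).2.1 (ha i).2.2 hn))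
  have hVc : ∀ n ∈ Icc 1 x, ∀ j, (c j * n + d j).natAbs ≤ Vf :=
    fun n hn j => form_leH rfl hx (hc j).2.1 (hc j).2.2 hn
  set Vt : ℝ := 48 * (A + 2) ^ (2 * k) * N ^ 2 * Rr ^ (2 * k + 3 * A) / Rr ^ B with hVt
  have hVt0 : 0 < Vt := by rw [hVt]; positivity
  have hsum : ∑ q ∈ PP w Vf c, (2 * U * mq c d x q) ^ 2 ≤ Vt := by
    refine (sum_sq_le hw0 hVc (PP w Vf c) (fun q hq => mem_PP hq)).trans ?_
    have h1 : U ^ 2 ≤ (A + 2) ^ (2 * k) * Rr ^ (2 * k) := by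
      calc U ^ 2 ≤ (((A + 2) * Rr) ^ k) ^ 2 := pow_le_pow_left₀ hU0 hUle 2
        _ = (A + 2) ^ (2 * k) * Rr ^ (2 * k) := by rw [← pow_mul, mul_pow, mul_comm k 2]
    have h2 : ((x / w + 1 : ℕ) : ℝ) ≤ 2 * N / Rr ^ B := by
      have h3 : ((x / w + 1 : ℕ) : ℝ) ≤ (x : ℝ) / w + 1 := by
        push_cast
        have := Nat.cast_div_le (α := ℝ) (m := x) (n := w)
        linarith
      have h4 : (x : ℝ) / w ≤ N / Rr ^ B := div_le_div₀ hNp.le hx' (by positivity) hw1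
      have h5 : (1 : ℝ) ≤ N / Rr ^ B := by
        rw [le_div_iff₀ (by positivity), one_mul]
        exact hRN
      have h6 : 2 * (N : ℝ) / Rr ^ B = N / Rr ^ B + N / Rr ^ B := by ring
      rw [h6]
      linarith
    have h3 : (l : ℝ) * ((x / w + 1 : ℕ) : ℝ) ≤ Rr ^ A * (2 * N / Rr ^ B) :=
      mul_le_mul hl h2 (Nat.cast_nonneg _) (by positivity)
    have h4 : (x : ℝ) * (l * Nat.log 2 Vf) ≤ N * (Rr ^ A * (6 * Rr ^ A)) := by
      apply mul_le_mul hx' _ (by positivity) hNp.le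
      exact mul_le_mul hl hlog2V (Nat.cast_nonneg _) (by positivity)
    have h5 := mul_le_mul h3 h4 (by positivity) (by positivity)
    have h6 := mul_le_mul h1 h5 (by positivity) (by positivity)
    have h7 : 4 * U ^ 2 * ((l * (x / w + 1 : ℕ) : ℝ) * (x * (l * Nat.log 2 Vf))) =
        4 * (U ^ 2 * ((l * (x / w + 1 : ℕ) : ℝ) * (x * (l * Nat.log 2 Vf)))) := by ring
    rw [h7]
    refine (mul_le_mul_of_nonneg_left h6 (by norm_num)).trans (le_of_eq ?_)
    have e1 : Rr ^ (2 * k + 3 * A) = Rr ^ (2 * k) * Rr ^ A * Rr ^ A * Rr ^ A := by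
      rw [← pow_add, ← pow_add, ← pow_add]
      congr 1
      ring
    rw [hVt, e1]
    field_simp
    ring
  set t : ℝ := C1 * N * D ^ k * ES with ht
  have ht0 : 0 ≤ t := by rw [ht]; positivity
  have hre : |Ex θ (PP w Vf c) (fun T => (FF u c d x T).re)| ≤ t := by
    have e : Ex θ (PP w Vf c) (fun T => (FF u c d x T).re) =
        ∑ n ∈ Icc 1 x, (u n).re * ∏ p ∈ PP w Vf c, (θ p * (-1 : ℝ) ^ ev c d p n + (1 - θ p) * 1) := by
      rw [← Ex_lin]
      exact Ex_congr fun T _ => FF_re u c d x T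
    rw [e]
    exact hmean l x a b c d j₀ (fun n => (u n).re) hx hl ha hc hR
      (fun n hn => (Complex.abs_re_le_norm _).trans (hu n hn))
  have him : |Ex θ (PP w Vf c) (fun T => (FF u c d x T).im)| ≤ t := by
    have e : Ex θ (PP w Vf c) (fun T => (FF u c d x T).im) =
        ∑ n ∈ Icc 1 x, (u n).im * ∏ p ∈ PP w Vf c, (θ p * (-1 : ℝ) ^ ev c d p n + (1 - θ p) * 1) := by
      rw [← Ex_lin]
      exact Ex_congr fun T _ => FF_im u c d x T
    rw [e]
    exact hmean l x a b c d j₀ (fun n => (u n).im) hx hl ha hc hR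
      (fun n hn => (Complex.abs_im_le_norm _).trans (hu n hn))
  have htail := tail_complex hθ (fun q => 2 * U * mq c d x q) (PP w Vf c) (FF u c d x)
    (fun T _ q _ hqT => FF_diff hUu hqT) Vt hVt0 hsum t t ht0 hre him
  have h1 : Ex θ (PP w Vf c) (fun T => if 4 * C1 * N * D ^ k * ES < ‖FF u c d x T‖ then 1 else 0) ≤
      Ex θ (PP w Vf c) (fun T => if 2 * (t + t) < ‖FF u c d x T‖ then 1 else 0) := by
    apply Ex_mono hθ
    intro T _
    by_cases h : 4 * C1 * N * D ^ k * ES < ‖FF u c d x T‖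
    · rw [if_pos h, if_pos]
      refine lt_of_le_of_lt (le_of_eq ?_) h
      rw [ht]
      ring
    · rw [if_neg h]
      split_ifs <;> norm_num
  refine (h1.trans htail).trans ?_
  -- comparison of the exponents
  have h2 : c9 * Rr ^ (M + 6) ≤ t ^ 2 / (2 * Vt) := by
    have h3 : t ^ 2 ≥ (C1 * Real.exp (-C2) * N / Rr) ^ 2 := by
      apply pow_le_pow_left₀ (by positivity)
      rw [ht, div_le_iff₀ hR0]
      have h4 : Real.exp (-C2) ≤ Rr * ES := by
        refine hSN.trans ?_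
        exact mul_le_mul_of_nonneg_right hRL hES0.le
      have h5 := mul_le_mul_of_nonneg_left h4 (show 0 ≤ C1 * N by positivity)
      have h6 : C1 * N * (Rr * ES) ≤ C1 * N * (Rr * ES) * D ^ k :=
        le_mul_of_one_le_right (by positivity) hDk1
      calc C1 * Real.exp (-C2) * N = C1 * N * Real.exp (-C2) := by ring
        _ ≤ C1 * N * (Rr * ES) * D ^ k := h5.trans h6
        _ = C1 * N * D ^ k * ES * Rr := by ring
    have h4 : (C1 * Real.exp (-C2) * N / Rr) ^ 2 / (2 * Vt) = c9 * Rr ^ (M + 6) := by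
      rw [hc9, hVt, hB, show 2 * k + 3 * A + M + 8 = (2 * k + 3 * A) + (M + 6) + 2 by ring,
        pow_add Rr (2 * k + 3 * A + (M + 6)) 2, pow_add Rr (2 * k + 3 * A) (M + 6)]
      field_simp
      ring
    rw [← h4]
    exact div_le_div_of_nonneg_right h3 (by positivity)
  have h3 : Rr ^ (M + 1) ≤ c9 * Rr ^ (M + 6) := by
    have h4 : 1 ≤ c9 * Rr ^ 5 := by
      rw [div_le_iff₀ hc90] at hLc
      have h5 : L ≤ Rr ^ 5 := by
        calc L ≤ Rr := hRL
          _ = Rr ^ 1 := (pow_one Rr).symm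
          _ ≤ Rr ^ 5 := pow_le_pow_right₀ hR1 (by norm_num)
      have h6 := mul_le_mul_of_nonneg_left h5 hc90.le
      linarith
    have h5 : c9 * Rr ^ (M + 6) = Rr ^ (M + 1) * (c9 * Rr ^ 5) := by
      rw [show M + 6 = (M + 1) + 5 by ring, pow_add]
      ring
    rw [h5]
    exact le_mul_of_one_le_right (by positivity) h4
  have h4 : Rr ^ M + 2 ≤ Rr ^ (M + 1) := by
    have h5 : (1 : ℝ) ≤ Rr ^ M := one_le_pow₀ hR1
    have h6 : (3 : ℝ) ≤ Rr := by linarith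
    rw [pow_succ]
    nlinarith
  have h5 : (4 : ℝ) ≤ Real.exp 2 := by
    have h6 := Real.add_one_le_exp (1 : ℝ)
    have h7 : Real.exp 2 = Real.exp 1 * Real.exp 1 := by
      rw [← Real.exp_add]
      norm_num
    rw [h7]
    nlinarith
  calc 4 * Real.exp (-(t ^ 2 / (2 * Vt))) ≤ Real.exp 2 * Real.exp (-(t ^ 2 / (2 * Vt))) :=
        mul_le_mul_of_nonneg_right h5 (Real.exp_pos _).le
    _ = Real.exp (2 + -(t ^ 2 / (2 * Vt))) := (Real.exp_add _ _).symm
    _ ≤ Real.exp (-(Rr ^ M)) := by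
        apply Real.exp_le_exp.2
        linarith

end Pool.Agent.Q259.RM
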