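import Pool.Agent.Q259.RM.Main

/-!
All parameters at once, and fixed shifts.
-/

set_option autoImplicit false

namespace Pool.Agent.Q259.RM

open Finset Filter MeasureTheory ProbabilityTheory

variable {Ω : Type*} [MeasurableSpace Ω] {k l : ℕ}

lemma RR_ne_zero {a b : Fin k → ℤ} {c d : Fin l → ℤ} {j₀ : Fin l} (ha : ∀ i, a i ≠ 0)
    (hab : ∀ i i', i ≠ i' → a i * b i' ≠ a i' * b i) (hac : ∀ i, a i * d j₀ ≠ c j₀ * b i)
    (hcc : ∀ j, j ≠ j₀ → c j * d j₀ ≠ c j₀ * d j) : RR a b c d j₀ ≠ 0 := by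
  unfold RR disc
  refine mul_ne_zero (mul_ne_zero (mul_ne_zero ?_ ?_) ?_) ?_
  · exact prod_ne_zero_iff.2 fun i _ => ha i
  · refine prod_ne_zero_iff.2 fun i _ => prod_ne_zero_iff.2 fun j hj => ?_
    exact sub_ne_zero.2 (hab i j (mem_filter.1 hj).2.ne)
  · exact prod_ne_zero_iff.2 fun j hj => sub_ne_zero.2 (hcc j (mem_erase.1 hj).1)
  · exact prod_ne_zero_iff.2 fun i _ => sub_ne_zero.2 (hac i)

/-- conditions on the system of forms -/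
def Good (A N : ℕ) (r : ℝ) (a b : Fin k → ℤ) (c d : Fin l → ℤ) (j₀ : Fin l) : Prop :=
  (∀ i, a i ≠ 0 ∧ |a i| ≤ (N : ℤ) ^ A ∧ |b i| ≤ (N : ℤ) ^ A) ∧
  (∀ j, c j ≠ 0 ∧ (|c j| : ℝ) ≤ Real.exp (r ^ A) ∧ (|d j| : ℝ) ≤ Real.exp (r ^ A)) ∧
  (∀ i i', i ≠ i' → a i * b i' ≠ a i' * b i) ∧ (∀ i, a i * d j₀ ≠ c j₀ * b i) ∧
  ∀ j, j ≠ j₀ → c j * d j₀ ≠ c j₀ * d j

theorem as_all {P : Measure Ω} [IsProbabilityMeasure P] {e : ℕ → Ω → ℝ}
    (hm : ∀ p, Measurable (e p)) (he : ∀ p ω, e p ω = 1 ∨ e p ω = -1) (hind : iIndepFun e P)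
    (R : ℕ → ℝ) (hRl : ∀ᶠ N : ℕ in atTop, Real.log N ≤ R N)
    (hS : Tendsto (fun N : ℕ => ∑ p ∈ PI (R N) N, dl (th P e) p / p) atTop atTop)
    (g : ℕ → ℂ) (hg : ∀ n, ‖g n‖ ≤ 1) (A₀ : ℕ) (W : ℕ → Finset (ℕ → ℂ))
    (hW : ∀ᶠ N : ℕ in atTop, ((W N).card : ℝ) ≤ Real.exp (R N ^ A₀))
    (hW1 : ∀ N, ∀ w ∈ W N, ∀ n, ‖w n‖ ≤ 1) :
    ∃ C : ℕ → ℕ → ℝ, ∀ᵐ ω ∂P, ∀ A k : ℕ, ∀ᶠ N : ℕ in atTop, ∀ (l x : ℕ) (w : ℕ → ℂ)
      (a b : Fin k → ℤ) (c d : Fin l → ℤ) (j₀ : Fin l), (l : ℝ) ≤ R N ^ A → x ≤ N → w ∈ W N →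
      Good A N (R N) a b c d j₀ →
      ‖SS g (fun p => e p ω) w a b c d x‖ ≤ C A k * N * AF (disc a b) ^ k *
        Real.exp (-(∑ p ∈ PI (R N) N, dl (th P e) p / p)) := by
  have h0 := fun A k : ℕ => as_one hm he hind R hRl hS g hg A₀ W hW hW1 (A + 2) k (by omega)
  choose C hC0 hC using h0
  refine ⟨C, ?_⟩
  have h1 : ∀ᵐ ω ∂P, ∀ (A k : ℕ), ∀ᶠ N : ℕ in atTop, ∀ (l x : ℕ) (w : ℕ → ℂ) (a b : Fin k → ℤ)
      (c d : Fin l → ℤ) (j₀ : Fin l), (l : ℝ) ≤ R N ^ (A + 2) → x ≤ N → w ∈ W N →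
      Adm N (A + 2) (HN R (A + 2) N) a b c d j₀ →
      ‖SS g (fun p => e p ω) w a b c d x‖ ≤ C A k * N * AF (disc a b) ^ k *
        Real.exp (-(∑ p ∈ PI (R N) N, dl (th P e) p / p)) := by
    rw [ae_all_iff]
    intro A
    rw [ae_all_iff]
    intro k
    exact hC A k
  filter_upwards [h1] with ω hω A k
  filter_upwards [hω A k, ev_R hRl 1, eventually_ge_atTop 1] with N hN hR1 hN1
  intro l x w a b c d j₀ hl hx hw hgood
  obtain ⟨ha, hc, hab, hac, hcc⟩ := hgood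
  have hRA : R N ^ A ≤ R N ^ (A + 2) := pow_le_pow_right₀ hR1 (by omega)
  have hNA : (N : ℤ) ^ A ≤ (N : ℤ) ^ (A + 2) :=
    pow_le_pow_right₀ (by exact_mod_cast hN1) (by omega)
  have hH : ∀ z : ℤ, (|z| : ℝ) ≤ Real.exp (R N ^ A) → |z| ≤ (HN R (A + 2) N : ℤ) := by
    intro z hz
    have h2 : z.natAbs ≤ HN R (A + 2) N := by
      unfold HN
      rw [Nat.le_floor_iff (Real.exp_pos _).le]
      have h3 : ((z.natAbs : ℕ) : ℝ) = |(z : ℝ)| := by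
        rw [Nat.cast_natAbs, Int.cast_abs]
      rw [h3]
      exact hz.trans (Real.exp_le_exp.2 hRA)
    rw [Int.abs_eq_natAbs]
    exact_mod_cast h2
  exact hN l x w a b c d j₀ (hl.trans hRA) hx hw
    ⟨fun i => ⟨(ha i).1, (ha i).2.1.trans hNA, (ha i).2.2.trans hNA⟩,
      fun j => ⟨(hc j).1, hH _ (hc j).2.1, hH _ (hc j).2.2⟩,
      RR_ne_zero (fun i => (ha i).1) hab hac hcc⟩

/-- fixed shifts -/
theorem fixed {g : ℕ → ℂ} {s : ℕ → ℝ} {R : ℕ → ℝ} (hRl : ∀ᶠ N : ℕ in atTop, Real.log N ≤ R N)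
    {W : ℕ → Finset (ℕ → ℂ)} (h1W : ∀ N, (fun _ => (1 : ℂ)) ∈ W N) {C : ℕ → ℕ → ℝ} {S : ℕ → ℝ}
    (hS : Tendsto S atTop atTop)
    (H : ∀ (A k : ℕ), ∀ᶠ N : ℕ in atTop, ∀ (l x : ℕ) (w : ℕ → ℂ)
      (a b : Fin k → ℤ) (c d : Fin l → ℤ) (j₀ : Fin l), (l : ℝ) ≤ R N ^ A → x ≤ N → w ∈ W N →
      Good A N (R N) a b c d j₀ →
      ‖SS g s w a b c d x‖ ≤ C A k * N * AF (disc a b) ^ k * Real.exp (-S N))
    (k l : ℕ) (hl : 1 ≤ l) (h : Fin k → ℕ) (h' : Fin l → ℕ) (hinj : Function.Injective h)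
    (hinj' : Function.Injective h') (hne : ∀ i j, h i ≠ h' j) :
    Tendsto (fun x : ℕ => (∑ n ∈ Icc 1 x, ((∏ i, ArithmeticFunction.vonMangoldt (n + h i) : ℝ) : ℂ) *
      ∏ j, (g (n + h' j) * ((cm s (n + h' j) : ℝ) : ℂ))) / (x : ℂ)) atTop (nhds 0) := by
  set a : Fin k → ℤ := fun _ => 1 with ha
  set b : Fin k → ℤ := fun i => (h i : ℤ) with hb
  set c : Fin l → ℤ := fun _ => 1 with hc
  set d : Fin l → ℤ := fun j => (h' j : ℤ) with hd
  set j₀ : Fin l := ⟨0, hl⟩ with hj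
  set K := AF (disc a b) ^ k with hK
  have hgood : ∀ᶠ N : ℕ in atTop, Good 1 N (R N) a b c d j₀ := by
    have hb' : ∃ M : ℕ, (∀ i, h i ≤ M) ∧ ∀ j, h' j ≤ M := by
      refine ⟨∑ i, h i + ∑ j, h' j, fun i => ?_, fun j => ?_⟩
      · exact (single_le_sum (fun _ _ => Nat.zero_le _) (mem_univ i)).trans (Nat.le_add_right _ _)
      · exact (single_le_sum (f := h') (fun _ _ => Nat.zero_le _) (mem_univ j)).trans
          (Nat.le_add_left _ _)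
    obtain ⟨M, hM1, hM2⟩ := hb'
    filter_upwards [eventually_ge_atTop (M + 1), ev_R hRl M, ev_R hRl 1] with N hN hR hR1
    refine ⟨fun i => ⟨one_ne_zero, ?_, ?_⟩, fun j => ⟨one_ne_zero, ?_, ?_⟩, ?_, ?_, ?_⟩
    · rw [ha, pow_one, abs_one]
      exact_mod_cast (by omega : 1 ≤ N)
    · rw [hb, pow_one]
      simp only [Nat.abs_cast]
      have := hM1 i
      exact_mod_cast (by omega : h i ≤ N)
    · rw [hc]
      simp only [Int.cast_one, abs_one, pow_one]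
      exact Real.one_le_exp (by linarith)
    · rw [hd]
      simp only [Int.cast_natCast, pow_one, Nat.abs_cast]
      have h2 : (h' j : ℝ) ≤ M := by exact_mod_cast hM2 j
      have h3 := Real.add_one_le_exp (R N)
      linarith
    · intro i i' hii heq
      simp only [ha, hb, one_mul] at heq
      exact hii (hinj (by exact_mod_cast heq.symm))
    · intro i heq
      simp only [ha, hb, hc, hd, one_mul] at heq
      exact hne i j₀ (by exact_mod_cast heq.symm)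
    · intro j hjj heq
      simp only [hc, hd, one_mul] at heq
      exact hjj (hinj' (by exact_mod_cast heq.symm))
  have hlR : ∀ᶠ N : ℕ in atTop, (l : ℝ) ≤ R N ^ 1 := by
    filter_upwards [ev_R hRl l] with N hN
    rwa [pow_one]
  have hlim : Tendsto (fun N : ℕ => C 1 k * K * Real.exp (-S N)) atTop (nhds 0) := by
    have h1 : Tendsto (fun N : ℕ => Real.exp (-S N)) atTop (nhds 0) :=
      Real.tendsto_exp_neg_atTop_nhds_zero.comp hS
    have h2 := h1.const_mul (C 1 k * K)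
    rwa [mul_zero] at h2
  apply squeeze_zero_norm' _ hlim
  filter_upwards [H 1 k, hgood, hlR, eventually_ge_atTop 1] with N h1 h2 h3 h4
  have hNp : (0 : ℝ) < N := by exact_mod_cast h4
  have h5 := h1 l N (fun _ => 1) a b c d j₀ h3 le_rfl (h1W N) h2
  have e1 : SS g s (fun _ => 1) a b c d N =
      ∑ n ∈ Icc 1 N, ((∏ i, ArithmeticFunction.vonMangoldt (n + h i) : ℝ) : ℂ) *
      ∏ j, (g (n + h' j) * ((cm s (n + h' j) : ℝ) : ℂ)) := by
    unfold SS vL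
    apply sum_congr rfl
    intro n _
    have e2 : ∀ i, (a i * (n : ℤ) + b i).natAbs = n + h i := by
      intro i
      simp only [ha, hb, one_mul]
      exact_mod_cast Int.natAbs_natCast (n + h i)
    have e3 : ∀ j, (c j * (n : ℤ) + d j).natAbs = n + h' j := by
      intro j
      simp only [hc, hd, one_mul]
      exact_mod_cast Int.natAbs_natCast (n + h' j)
    simp only [e2, e3, one_mul]
  rw [e1] at h5
  rw [norm_div, Complex.norm_natCast, div_le_iff₀ hNp]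
  refine h5.trans (le_of_eq ?_)
  rw [hK]
  ring

end Pool.Agent.Q259.RM
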