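import Pool.Agent.Q259.RM.Prob

/-!
The almost sure statement.
-/

set_option autoImplicit false

namespace Pool.Agent.Q259.RM

open Finset Filter MeasureTheory ProbabilityTheory

variable {Ω : Type*} [MeasurableSpace Ω] {k l : ℕ}

/-- the sum with the values `s p` of the random signs -/
noncomputable def SS (g : ℕ → ℂ) (s : ℕ → ℝ) (w : ℕ → ℂ) (a b : Fin k → ℤ) (c d : Fin l → ℤ)
    (x : ℕ) : ℂ :=
  ∑ n ∈ Icc 1 x, w n * ((vL a b n : ℝ) : ℂ) *
    ∏ j, (g (c j * n + d j).natAbs * ((cm s (c j * n + d j).natAbs : ℝ) : ℂ))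

lemma FF_union (u : ℕ → ℂ) (c d : Fin l → ℤ) (x : ℕ) (T0 T1 : Finset ℕ) (h : Disjoint T0 T1) :
    FF u c d x (T0 ∪ T1) = FF (fun n => u n * ∏ p ∈ T0, (-1 : ℂ) ^ ev c d p n) c d x T1 := by
  unfold FF
  apply sum_congr rfl
  intro n _
  rw [prod_union h]
  ring

theorem event_asy {P : Measure Ω} [IsProbabilityMeasure P] {e : ℕ → Ω → ℝ}
    (hm : ∀ p, Measurable (e p)) (he : ∀ p ω, e p ω = 1 ∨ e p ω = -1) (hind : iIndepFun e P)
    (R : ℕ → ℝ) (hRl : ∀ᶠ N : ℕ in atTop, Real.log N ≤ R N)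
    (hS : Tendsto (fun N : ℕ => ∑ p ∈ PI (R N) N, dl (th P e) p / p) atTop atTop)
    (k A M : ℕ) (hA : 2 ≤ A) : ∃ C : ℝ, 0 < C ∧ ∀ᶠ N : ℕ in atTop, ∀ (l x : ℕ)
      (a b : Fin k → ℤ)
      (c d : Fin l → ℤ) (j₀ : Fin l) (w g : ℕ → ℂ), x ≤ N → (l : ℝ) ≤ R N ^ A →
      (∀ i, a i ≠ 0 ∧ |a i| ≤ (N : ℤ) ^ A ∧ |b i| ≤ (N : ℤ) ^ A) →
      (∀ j, c j ≠ 0 ∧ |c j| ≤ (HN R A N : ℤ) ∧ |d j| ≤ (HN R A N : ℤ)) →
      RR a b c d j₀ ≠ 0 → (∀ n, ‖w n‖ ≤ 1) → (∀ n, ‖g n‖ ≤ 1) →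
      P.real {ω | C * N * AF (disc a b) ^ k *
        Real.exp (-(∑ p ∈ PI (R N) N, dl (th P e) p / p)) <
        ‖SS g (fun p => e p ω) w a b c d x‖} ≤ Real.exp (-(R N ^ M)) := by
  classical
  have hθ := fun p => th_mem P e p
  obtain ⟨C, hC, htail0⟩ := tail_asy k A M hA (th P e) hθ R hRl hS
  refine ⟨C, hC, ?_⟩
  filter_upwards [htail0, eventually_ge_atTop 1]
    with N htail hN1 l x a b c d j₀ w g hx hl ha hc hR hw hg
  set ES := Real.exp (-(∑ p ∈ PI (R N) N, dl (th P e) p / p)) with hES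
  set V := HN R A N * (N + 1) with hV
  set B := 2 * k + 3 * A + M + 8 with hB
  set S := (Icc 1 V).filter Nat.Prime with hSd
  set S1 := PP (wN R B N) V c with hS1
  have hS1S : S1 ⊆ S := by
    intro p hp
    rw [hS1, PP, mem_filter, mem_Ioc] at hp
    rw [hSd, mem_filter, mem_Icc]
    exact ⟨⟨hp.2.1.one_lt.le, hp.1.2⟩, hp.2.1⟩
  set u0 : ℕ → ℂ := fun n => w n * ((vL a b n : ℝ) : ℂ) * ∏ j, g (c j * n + d j).natAbs with hu0
  have hu0n : ∀ n, ‖u0 n‖ ≤ vL a b n := by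
    intro n
    rw [hu0]
    simp only
    rw [norm_mul, norm_mul, Complex.norm_real, Real.norm_of_nonneg (vL_nonneg a b n), norm_prod]
    have h1 : ∏ j, ‖g (c j * n + d j).natAbs‖ ≤ 1 := prod_le_one (fun _ _ => norm_nonneg _) fun j _ => hg _
    have h2 : ‖w n‖ * vL a b n ≤ 1 * vL a b n :=
      mul_le_mul_of_nonneg_right (hw n) (vL_nonneg a b n)
    calc ‖w n‖ * vL a b n * ∏ j, ‖g (c j * n + d j).natAbs‖ ≤ 1 * vL a b n * 1 :=
          mul_le_mul h2 h1 (prod_nonneg fun _ _ => norm_nonneg _)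
            (mul_nonneg zero_le_one (vL_nonneg a b n))
      _ = vL a b n := by ring
  have hSS : ∀ ω, SS g (fun p => e p ω) w a b c d x = FF u0 c d x (TT S e ω) := by
    intro ω
    unfold SS FF
    apply sum_congr rfl
    intro n hn
    rw [prod_mul_distrib]
    have h1 : ∏ j, ((cm (fun p => e p ω) (c j * n + d j).natAbs : ℝ) : ℂ) =
        ∏ p ∈ TT S e ω, (-1 : ℂ) ^ ev c d p n := by
      rw [← Complex.ofReal_prod, prod_cm (S := S) (fun p => he p ω) c d n V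
        (fun j => form_leH rfl hx (hc j).2.1 (hc j).2.2 hn) (fun p hp hpV => by
          rw [hSd, mem_filter, mem_Icc]
          exact ⟨⟨hp.one_lt.le, hpV⟩, hp⟩)]
      push_cast
      rfl
    rw [h1, hu0]
    ring
  have h1 : {ω | C * N * AF (disc a b) ^ k * ES < ‖SS g (fun p => e p ω) w a b c d x‖} =
      {ω | C * N * AF (disc a b) ^ k * ES < ‖FF u0 c d x (TT S e ω)‖} := by
    ext ω
    simp only [Set.mem_ofPred_eq, hSS ω]
  rw [h1]
  refine (event_le hm he hind S (fun T => C * N * AF (disc a b) ^ k * ES < ‖FF u0 c d x T‖)).trans ?_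
  apply Ex_union_le hθ S S1 hS1S
  intro T0 hT0
  have h2 := htail l x a b c d j₀ (fun n => u0 n * ∏ p ∈ T0, (-1 : ℂ) ^ ev c d p n) hx hl ha hc hR
    (fun n _ => by
      rw [norm_mul, norm_prod]
      have h3 : ∏ p ∈ T0, ‖(-1 : ℂ) ^ ev c d p n‖ = 1 := by
        apply prod_eq_one
        intro p _
        rw [norm_pow, norm_neg, norm_one, one_pow]
      rw [h3, mul_one]
      exact hu0n n)
  refine le_trans (le_of_eq ?_) h2
  apply Ex_congr
  intro T1 hT1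
  rw [FF_union]
  rw [disjoint_left]
  intro p hp hp1
  exact (mem_sdiff.1 (hT0 hp)).2 (hT1 hp1)

/-- number of possible data -/
lemma card_data (A k A₀ : ℕ) (R : ℕ → ℝ) (hRl : ∀ᶠ N : ℕ in atTop, Real.log N ≤ R N) (hA : 2 ≤ A) :
    ∀ᶠ N : ℕ in atTop, ∀ (l : ℕ) (Wc : ℝ), (l : ℝ) ≤ R N ^ A →
    0 ≤ Wc → Wc ≤ Real.exp (R N ^ A₀) →
    ((⌊R N ^ A⌋₊ + 1 : ℕ) : ℝ) * ((N + 1 : ℕ) * (Wc * (((2 * (N : ℝ) ^ A + 1) ^ k) *
      (((2 * (N : ℝ) ^ A + 1) ^ k) * (((2 * (HN R A N : ℝ) + 1) ^ l) *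
      (((2 * (HN R A N : ℝ) + 1) ^ l) * l)))))) * Real.exp (-(R N ^ (2 * A + A₀ + 3))) ≤
      1 / (N : ℝ) ^ 2 := by
  filter_upwards [hRl, H_props hRl A hA, eventually_ge_atTop 2, ev_log (13 + 2 * (A + 2) * k)]
    with N hRL hH hN2 hL l Wc hl hW0 hW
  obtain ⟨hH1, hHR, hNH, hHe⟩ := hH
  set L := Real.log N with hLd
  set r := R N with hr
  set H := HN R A N with hHd
  have hNp : (0 : ℝ) < N := by exact_mod_cast (by omega : 0 < N)
  have hN2' : (2 : ℝ) ≤ N := by exact_mod_cast hN2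
  have hN1 : (1 : ℝ) ≤ N := by linarith
  have hA0 : (0 : ℝ) ≤ A := Nat.cast_nonneg _
  have hk0 : (0 : ℝ) ≤ k := Nat.cast_nonneg _
  have hAk : (0 : ℝ) ≤ 2 * (A + 2) * k := by positivity
  have hL1 : (1 : ℝ) ≤ L := by linarith
  have hr1 : (1 : ℝ) ≤ r := by linarith
  have hrA : (1 : ℝ) ≤ r ^ A := one_le_pow₀ hr1
  have c1 : ((⌊r ^ A⌋₊ + 1 : ℕ) : ℝ) ≤ Real.exp (r ^ A) := by
    push_cast
    have h1 : (⌊r ^ A⌋₊ : ℝ) ≤ r ^ A := Nat.floor_le (by positivity)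
    have h2 := Real.add_one_le_exp (r ^ A)
    linarith
  have c2 : ((N + 1 : ℕ) : ℝ) ≤ Real.exp (2 * r) := by
    have h1 : ((N + 1 : ℕ) : ℝ) ≤ (N : ℝ) ^ 2 := by
      push_cast
      nlinarith
    have h2 : (N : ℝ) ^ 2 = Real.exp (2 * L) := by
      rw [mul_comm, Real.exp_mul, hLd, Real.exp_log hNp]
      norm_cast
    rw [h2] at h1
    exact h1.trans (Real.exp_le_exp.2 (by linarith))
  have c3 : (2 * (N : ℝ) ^ A + 1) ^ k ≤ Real.exp ((A + 2) * k * r) := by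
    have h1 : 2 * (N : ℝ) ^ A + 1 ≤ (N : ℝ) ^ (A + 2) := by
      have h2 : (1 : ℝ) ≤ (N : ℝ) ^ A := one_le_pow₀ hN1
      have h3 : (4 : ℝ) ≤ (N : ℝ) ^ 2 := by nlinarith
      rw [pow_add]
      have h4 := mul_le_mul_of_nonneg_left h3 (show (0 : ℝ) ≤ (N : ℝ) ^ A by positivity)
      linarith
    have h2 : (N : ℝ) ^ (A + 2) = Real.exp ((A + 2) * L) := by
      rw [mul_comm, Real.exp_mul, hLd, Real.exp_log hNp]
      norm_cast
    have h3 : 2 * (N : ℝ) ^ A + 1 ≤ Real.exp ((A + 2) * r) := by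
      rw [h2] at h1
      exact h1.trans (Real.exp_le_exp.2 (mul_le_mul_of_nonneg_left hRL (by positivity)))
    calc (2 * (N : ℝ) ^ A + 1) ^ k ≤ (Real.exp ((A + 2) * r)) ^ k :=
          pow_le_pow_left₀ (by positivity) h3 k
      _ = Real.exp ((A + 2) * k * r) := by
          rw [← Real.exp_nat_mul]
          congr 1
          ring
  have c4 : (2 * (H : ℝ) + 1) ^ l ≤ Real.exp (3 * (l * r ^ A)) := by
    have h1 : 2 * (H : ℝ) + 1 ≤ Real.exp (3 * r ^ A) := by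
      have h2 : (1 : ℝ) ≤ H := by exact_mod_cast hH1
      have h3 : (3 : ℝ) ≤ Real.exp (2 * r ^ A) := by
        have := Real.add_one_le_exp (2 * r ^ A)
        linarith
      have h4 : Real.exp (3 * r ^ A) = Real.exp (2 * r ^ A) * Real.exp (r ^ A) := by
        rw [← Real.exp_add]
        congr 1
        ring
      rw [h4]
      have h5 : 3 * (H : ℝ) ≤ Real.exp (2 * r ^ A) * Real.exp (r ^ A) :=
        mul_le_mul h3 hHe (by linarith) (Real.exp_pos _).le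
      linarith
    calc (2 * (H : ℝ) + 1) ^ l ≤ (Real.exp (3 * r ^ A)) ^ l :=
          pow_le_pow_left₀ (by positivity) h1 l
      _ = Real.exp (3 * (l * r ^ A)) := by
          rw [← Real.exp_nat_mul]
          congr 1
          ring
  have c5 : (l : ℝ) ≤ Real.exp (r ^ A) := by
    have := Real.add_one_le_exp (r ^ A)
    linarith
  have hprod : ((⌊r ^ A⌋₊ + 1 : ℕ) : ℝ) * ((N + 1 : ℕ) * (Wc * (((2 * (N : ℝ) ^ A + 1) ^ k) *
      (((2 * (N : ℝ) ^ A + 1) ^ k) * (((2 * (H : ℝ) + 1) ^ l) *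
      (((2 * (H : ℝ) + 1) ^ l) * l)))))) ≤
      Real.exp (r ^ A) * (Real.exp (2 * r) * (Real.exp (r ^ A₀) * (Real.exp ((A + 2) * k * r) *
        (Real.exp ((A + 2) * k * r) * (Real.exp (3 * (l * r ^ A)) * (Real.exp (3 * (l * r ^ A)) *
        Real.exp (r ^ A))))))) := by
    apply mul_le_mul c1 _ (by positivity) (by positivity)
    apply mul_le_mul c2 _ (by positivity) (by positivity)
    apply mul_le_mul hW _ (by positivity) (by positivity)
    apply mul_le_mul c3 _ (by positivity) (by positivity)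
    apply mul_le_mul c3 _ (by positivity) (by positivity)
    apply mul_le_mul c4 _ (by positivity) (by positivity)
    exact mul_le_mul c4 c5 (by positivity) (by positivity)
  refine (mul_le_mul_of_nonneg_right hprod (Real.exp_pos _).le).trans ?_
  have hfin : (1 : ℝ) / (N : ℝ) ^ 2 = Real.exp (-(2 * L)) := by
    have h2 : (N : ℝ) ^ 2 = Real.exp (2 * L) := by
      rw [mul_comm, Real.exp_mul, hLd, Real.exp_log hNp]
      norm_cast
    rw [h2, Real.exp_neg, one_div]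
  rw [hfin]
  rw [← Real.exp_add, ← Real.exp_add, ← Real.exp_add, ← Real.exp_add, ← Real.exp_add,
    ← Real.exp_add, ← Real.exp_add, ← Real.exp_add]
  apply Real.exp_le_exp.2
  set M1 := 2 * A + A₀ + 2 with hM1
  have e1 : r ^ (2 * A + A₀ + 3) = r ^ M1 * r := by rw [hM1, ← pow_succ]
  have e2 : r ^ A ≤ r ^ M1 := pow_le_pow_right₀ hr1 (by omega)
  have e3 : r ^ A₀ ≤ r ^ M1 := pow_le_pow_right₀ hr1 (by omega)
  have e4 : r ≤ r ^ M1 := by
    calc r = r ^ 1 := (pow_one r).symm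
      _ ≤ r ^ M1 := pow_le_pow_right₀ hr1 (by omega)
  have e5 : (l : ℝ) * r ^ A ≤ r ^ M1 := by
    calc (l : ℝ) * r ^ A ≤ r ^ A * r ^ A := mul_le_mul_of_nonneg_right hl (by positivity)
      _ = r ^ (2 * A) := by rw [two_mul, pow_add]
      _ ≤ r ^ M1 := pow_le_pow_right₀ hr1 (by omega)
  have e6 : (13 + 2 * (A + 2) * k : ℝ) * r ^ M1 ≤ r ^ M1 * r := by
    rw [mul_comm (r ^ M1) r]
    exact mul_le_mul_of_nonneg_right (hL.trans hRL) (by positivity)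
  rw [e1]
  have e8 : ((A : ℝ) + 2) * k * r ≤ (A + 2) * k * r ^ M1 :=
    mul_le_mul_of_nonneg_left e4 (by positivity)
  linarith

/-- conditions on the forms -/
def Adm (N A H : ℕ) (a b : Fin k → ℤ) (c d : Fin l → ℤ) (j₀ : Fin l) : Prop :=
  (∀ i, a i ≠ 0 ∧ |a i| ≤ (N : ℤ) ^ A ∧ |b i| ≤ (N : ℤ) ^ A) ∧
  (∀ j, c j ≠ 0 ∧ |c j| ≤ (H : ℤ) ∧ |d j| ≤ (H : ℤ)) ∧ RR a b c d j₀ ≠ 0

/-- the box of vectors -/
noncomputable def Bx (k H : ℕ) : Finset (Fin k → ℤ) :=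
  Fintype.piFinset (fun _ : Fin k => Icc (-(H : ℤ)) (H : ℤ))

lemma Bx_card (k H : ℕ) : ((Bx k H).card : ℝ) = (2 * (H : ℝ) + 1) ^ k := by
  unfold Bx
  rw [Fintype.card_piFinset_const, Int.card_Icc]
  have h : ((H : ℤ) + 1 - -(H : ℤ)).toNat = 2 * H + 1 := by
    have : (H : ℤ) + 1 - -(H : ℤ) = ((2 * H + 1 : ℕ) : ℤ) := by
      push_cast
      ring
    rw [this, Int.toNat_natCast]
  rw [h]
  push_cast
  rfl

lemma mem_Bx {k H : ℕ} {a : Fin k → ℤ} (h : ∀ i, |a i| ≤ (H : ℤ)) : a ∈ Bx k H := by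
  unfold Bx
  rw [Fintype.mem_piFinset]
  intro i
  rw [mem_Icc]
  exact abs_le.1 (h i)

theorem as_one {P : Measure Ω} [IsProbabilityMeasure P] {e : ℕ → Ω → ℝ}
    (hm : ∀ p, Measurable (e p)) (he : ∀ p ω, e p ω = 1 ∨ e p ω = -1) (hind : iIndepFun e P)
    (R : ℕ → ℝ) (hRl : ∀ᶠ N : ℕ in atTop, Real.log N ≤ R N)
    (hS : Tendsto (fun N : ℕ => ∑ p ∈ PI (R N) N, dl (th P e) p / p) atTop atTop)
    (g : ℕ → ℂ) (hg : ∀ n, ‖g n‖ ≤ 1) (A₀ : ℕ) (W : ℕ → Finset (ℕ → ℂ))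
    (hW : ∀ᶠ N : ℕ in atTop, ((W N).card : ℝ) ≤ Real.exp (R N ^ A₀))
    (hW1 : ∀ N, ∀ w ∈ W N, ∀ n, ‖w n‖ ≤ 1) (A k : ℕ) (hA : 2 ≤ A) :
    ∃ C : ℝ, 0 < C ∧ ∀ᵐ ω ∂P, ∀ᶠ N : ℕ in atTop, ∀ (l x : ℕ) (w : ℕ → ℂ) (a b : Fin k → ℤ)
      (c d : Fin l → ℤ) (j₀ : Fin l), (l : ℝ) ≤ R N ^ A → x ≤ N → w ∈ W N →
      Adm N A (HN R A N) a b c d j₀ →
      ‖SS g (fun p => e p ω) w a b c d x‖ ≤ C * N * AF (disc a b) ^ k *
        Real.exp (-(∑ p ∈ PI (R N) N, dl (th P e) p / p)) := by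
  classical
  obtain ⟨C, hC, hev0⟩ := event_asy hm he hind R hRl hS k A (2 * A + A₀ + 3) hA
  refine ⟨C, hC, ?_⟩
  set ES : ℕ → ℝ := fun N => Real.exp (-(∑ p ∈ PI (R N) N, dl (th P e) p / p)) with hES
  obtain ⟨N1, hN1⟩ := eventually_atTop.1
    ((hev0.and (card_data A k A₀ R hRl hA)).and
      (hW.and ((eventually_ge_atTop 1).and (ev_R hRl 1))))
  set s : ℕ → Set Ω := fun N => {ω | N1 ≤ N ∧ ∃ (l x : ℕ) (w : ℕ → ℂ) (a b : Fin k → ℤ)
      (c d : Fin l → ℤ) (j₀ : Fin l), (l : ℝ) ≤ R N ^ A ∧ x ≤ N ∧ w ∈ W N ∧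
      Adm N A (HN R A N) a b c d j₀ ∧
        C * N * AF (disc a b) ^ k * ES N < ‖SS g (fun p => e p ω) w a b c d x‖} with hs
  have hbound : ∀ N, P (s N) ≤ ENNReal.ofReal (1 / (N : ℝ) ^ 2) := by
    intro N
    by_cases hN : N1 ≤ N
    · obtain ⟨⟨hev, hcd⟩, hWN, hNpos, hR1⟩ := hN1 N hN
      set ε := Real.exp (-(R N ^ (2 * A + A₀ + 3))) with hε
      set H := HN R A N with hHd
      -- the data
      set T : (l : ℕ) → Finset (ℕ × (ℕ → ℂ) × (Fin k → ℤ) × (Fin k → ℤ) × (Fin l → ℤ) ×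
        (Fin l → ℤ) × Fin l) := fun l => range (N + 1) ×ˢ (W N ×ˢ (Bx k (N ^ A) ×ˢ (Bx k (N ^ A) ×ˢ
          (Bx l H ×ˢ (Bx l H ×ˢ univ))))) with hT
      set Ev : (l : ℕ) → (ℕ × (ℕ → ℂ) × (Fin k → ℤ) × (Fin k → ℤ) × (Fin l → ℤ) ×
        (Fin l → ℤ) × Fin l) → Set Ω := fun l z => {ω | ((l : ℝ) ≤ R N ^ A ∧ z.1 ≤ N ∧
          z.2.1 ∈ W N ∧ Adm N A H z.2.2.1 z.2.2.2.1 z.2.2.2.2.1 z.2.2.2.2.2.1 z.2.2.2.2.2.2) ∧
          C * N * AF (disc z.2.2.1 z.2.2.2.1) ^ k * ES N <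
            ‖SS g (fun p => e p ω) z.2.1 z.2.2.1 z.2.2.2.1 z.2.2.2.2.1 z.2.2.2.2.2.1 z.1‖} with hEv
      have hsub : s N ⊆ ⋃ l ∈ range (⌊R N ^ A⌋₊ + 1), ⋃ z ∈ T l, Ev l z := by
        intro ω hω
        obtain ⟨_, l, x, w, a, b, c, d, j₀, h1, h2, h3, h4, h5⟩ := hω
        simp only [Set.mem_iUnion, exists_prop]
        refine ⟨l, ?_, (x, w, a, b, c, d, j₀), ?_, ⟨h1, h2, h3, h4⟩, h5⟩
        · rw [mem_range, Nat.lt_succ_iff]
          exact Nat.le_floor h1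
        · rw [hT]
          simp only [mem_product, mem_univ, and_true]
          exact ⟨mem_range.2 (by omega), h3,
            mem_Bx fun i => by push_cast; exact (h4.1 i).2.1,
            mem_Bx fun i => by push_cast; exact (h4.1 i).2.2,
            mem_Bx fun j => (h4.2.1 j).2.1, mem_Bx fun j => (h4.2.1 j).2.2⟩
      have hEvle : ∀ l z, P.real (Ev l z) ≤ ε := by
        intro l z
        by_cases h : (l : ℝ) ≤ R N ^ A ∧ z.1 ≤ N ∧
          z.2.1 ∈ W N ∧ Adm N A H z.2.2.1 z.2.2.2.1 z.2.2.2.2.1 z.2.2.2.2.2.1 z.2.2.2.2.2.2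
        · refine le_trans (measureReal_mono ?_ (measure_ne_top _ _)) (hev l z.1 z.2.2.1 z.2.2.2.1
            z.2.2.2.2.1 z.2.2.2.2.2.1 z.2.2.2.2.2.2 z.2.1 g h.2.1 h.1 h.2.2.2.1 h.2.2.2.2.1
            h.2.2.2.2.2 (hW1 N _ h.2.2.1) hg)
          intro ω hω
          exact hω.2
        · have : Ev l z = ∅ := by
            rw [Set.eq_empty_iff_forall_notMem]
            intro ω hω
            exact h hω.1
          rw [this, measureReal_empty]
          exact (Real.exp_pos _).le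
      have h1 : P.real (s N) ≤ ∑ l ∈ range (⌊R N ^ A⌋₊ + 1), ((T l).card : ℝ) * ε := by
        refine (measureReal_mono hsub (measure_ne_top _ _)).trans ?_
        refine (measureReal_biUnion_finset_le _ _).trans (sum_le_sum fun l _ => ?_)
        refine (measureReal_biUnion_finset_le _ _).trans ?_
        refine (sum_le_sum fun z _ => hEvle l z).trans ?_
        rw [sum_const, nsmul_eq_mul]
      have hTc : ∀ l, ((T l).card : ℝ) = (N + 1 : ℕ) * ((W N).card * (((2 * (N : ℝ) ^ A + 1) ^ k) *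
          (((2 * (N : ℝ) ^ A + 1) ^ k) * (((2 * (H : ℝ) + 1) ^ l) *
          (((2 * (H : ℝ) + 1) ^ l) * l))))) := by
        intro l
        rw [hT]
        simp only [card_product, card_range, card_univ, Fintype.card_fin]
        have h2 := Bx_card k (N ^ A)
        push_cast at h2
        rw [← h2, ← Bx_card l H]
        push_cast
        ring
      have hNr : (0 : ℝ) < (N : ℝ) ^ 2 := by
        have : (0 : ℝ) < N := by exact_mod_cast hNpos
        positivity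
      have h2 : ∑ l ∈ range (⌊R N ^ A⌋₊ + 1), ((T l).card : ℝ) * ε ≤ 1 / (N : ℝ) ^ 2 := by
        have h3 : ∀ l ∈ range (⌊R N ^ A⌋₊ + 1), ((T l).card : ℝ) * ε ≤
            (1 / (N : ℝ) ^ 2) / ((⌊R N ^ A⌋₊ + 1 : ℕ) : ℝ) := by
          intro l hl
          rw [mem_range, Nat.lt_succ_iff] at hl
          have hl' : (l : ℝ) ≤ R N ^ A := by
            have h4 : (⌊R N ^ A⌋₊ : ℝ) ≤ R N ^ A := by
              apply Nat.floor_le
              apply pow_nonneg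
              linarith
            have h5 : (l : ℝ) ≤ (⌊R N ^ A⌋₊ : ℝ) := by exact_mod_cast hl
            linarith
          have h4 := hcd l ((W N).card : ℝ) hl' (Nat.cast_nonneg _) hWN
          rw [le_div_iff₀ (by positivity), hTc]
          refine le_trans (le_of_eq ?_) h4
          ring
        refine (sum_le_sum h3).trans ?_
        rw [sum_const, card_range, nsmul_eq_mul]
        apply le_of_eq
        field_simp
      have h3 : P (s N) = ENNReal.ofReal (P.real (s N)) := (ofReal_measureReal (measure_ne_top _ _)).symm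
      rw [h3]
      exact ENNReal.ofReal_le_ofReal (h1.trans h2)
    · have : s N = ∅ := by
        rw [Set.eq_empty_iff_forall_notMem]
        intro ω hω
        exact hN hω.1
      rw [this, measure_empty]
      exact zero_le
  have hsum : ∑' N, P (s N) ≠ ⊤ := by
    have h1 : ∑' N : ℕ, ENNReal.ofReal (1 / (N : ℝ) ^ 2) ≠ ⊤ :=
      (Real.summable_one_div_nat_pow.2 (by norm_num)).tsum_ofReal_ne_top
    exact ne_top_of_le_ne_top h1 (ENNReal.tsum_le_tsum hbound)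
  filter_upwards [ae_eventually_notMem hsum] with ω hω
  filter_upwards [hω, eventually_ge_atTop N1] with N hN hN1' l x w a b c d j₀ hl hx hw hadm
  by_contra hcon
  exact hN ⟨hN1', l, x, w, a, b, c, d, j₀, hl, hx, hw, hadm, not_le.1 hcon⟩

end Pool.Agent.Q259.RM
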