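import Pool.Agent.Q259.RM.Asy4

/-!
From independent random signs to random subsets.
-/

set_option autoImplicit false

namespace Pool.Agent.Q259.RM

open Finset Filter MeasureTheory ProbabilityTheory

variable {Ω : Type*} [MeasurableSpace Ω]

/-- probability of the value `-1` -/
noncomputable def th (P : Measure Ω) (e : ℕ → Ω → ℝ) (p : ℕ) : ℝ := P.real {ω | e p ω = -1}

lemma th_mem (P : Measure Ω) [IsProbabilityMeasure P] (e : ℕ → Ω → ℝ) (p : ℕ) :
    0 ≤ th P e p ∧ th P e p ≤ 1 := ⟨measureReal_nonneg, measureReal_le_one⟩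

lemma meas_neg {e : ℕ → Ω → ℝ} (hm : ∀ p, Measurable (e p)) (p : ℕ) :
    MeasurableSet {ω | e p ω = -1} := hm p (measurableSet_singleton _)

lemma real_one {P : Measure Ω} [IsProbabilityMeasure P] {e : ℕ → Ω → ℝ}
    (hm : ∀ p, Measurable (e p)) (he : ∀ p ω, e p ω = 1 ∨ e p ω = -1) (p : ℕ) :
    P.real {ω | e p ω = 1} = 1 - th P e p := by
  have h : {ω | e p ω = 1} = {ω | e p ω = -1}ᶜ := by
    ext ω
    simp only [Set.mem_ofPred_eq, Set.mem_compl_iff]
    rcases he p ω with h | h
    · rw [h]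
      norm_num
    · rw [h]
      norm_num
  rw [h, probReal_compl_eq_one_sub (meas_neg hm p)]
  rfl

lemma int_e {P : Measure Ω} [IsProbabilityMeasure P] {e : ℕ → Ω → ℝ}
    (hm : ∀ p, Measurable (e p)) (he : ∀ p ω, e p ω = 1 ∨ e p ω = -1) (p : ℕ) :
    ∫ ω, e p ω ∂P = 1 - 2 * th P e p := by
  have h : (fun ω => e p ω) = fun ω => 1 - {ω | e p ω = -1}.indicator (fun _ => (2 : ℝ)) ω := by
    funext ω
    rcases he p ω with h | h
    · rw [Set.indicator_of_notMem (by simp only [Set.mem_ofPred_eq]; rw [h]; norm_num), h]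
      norm_num
    · rw [Set.indicator_of_mem (by simp only [Set.mem_ofPred_eq]; exact h), h]
      norm_num
  rw [h, integral_sub (integrable_const _) ((integrable_const _).indicator (meas_neg hm p)),
    integral_indicator_const _ (meas_neg hm p)]
  simp only [integral_const, probReal_univ, smul_eq_mul]
  unfold th
  ring

lemma dl_th {P : Measure Ω} [IsProbabilityMeasure P] {e : ℕ → Ω → ℝ}
    (hm : ∀ p, Measurable (e p)) (he : ∀ p ω, e p ω = 1 ∨ e p ω = -1) (p : ℕ) :
    dl (th P e) p = 1 - |∫ ω, e p ω ∂P| := by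
  rw [int_e hm he, dl]

open Classical in
/-- the random set -/
noncomputable def TT (S : Finset ℕ) (e : ℕ → Ω → ℝ) (ω : Ω) : Finset ℕ :=
  S.filter (fun p => e p ω = -1)

lemma law {P : Measure Ω} [IsProbabilityMeasure P] {e : ℕ → Ω → ℝ}
    (hm : ∀ p, Measurable (e p)) (he : ∀ p ω, e p ω = 1 ∨ e p ω = -1) (hind : iIndepFun e P)
    (S T : Finset ℕ) (hT : T ⊆ S) : P.real {ω | TT S e ω = T} = mu (th P e) S T := by
  classical
  have h : {ω | TT S e ω = T} = ⋂ p ∈ S, (e p) ⁻¹' (if p ∈ T then {-1} else {1}) := by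
    ext ω
    simp only [Set.mem_ofPred_eq, Set.mem_iInter]
    constructor
    · intro h p hp
      split_ifs with h1
      · rw [← h, TT, mem_filter] at h1
        exact h1.2
      · rcases he p ω with h2 | h2
        · exact h2
        · exfalso
          apply h1
          rw [← h, TT, mem_filter]
          exact ⟨hp, h2⟩
    · intro h
      ext p
      rw [TT, mem_filter]
      constructor
      · rintro ⟨hp, h2⟩
        by_contra h3
        have := h p hp
        rw [if_neg h3] at this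
        have h4 : e p ω = 1 := this
        rw [h4] at h2
        norm_num at h2
      · intro hp
        have := h p (hT hp)
        rw [if_pos hp] at this
        exact ⟨hT hp, this⟩
  rw [h, Measure.real, hind.measure_inter_preimage_eq_mul S (fun p _ => by
    split_ifs <;> exact measurableSet_singleton _), ENNReal.toReal_prod]
  unfold mu
  rw [← prod_sdiff hT, mul_comm]
  congr 1
  · apply prod_congr rfl
    intro p hp
    rw [if_pos hp]
    rfl
  · apply prod_congr rfl
    intro p hp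
    rw [if_neg (mem_sdiff.1 hp).2, ← real_one hm he]
    rfl

open Classical in
lemma event_le {P : Measure Ω} [IsProbabilityMeasure P] {e : ℕ → Ω → ℝ}
    (hm : ∀ p, Measurable (e p)) (he : ∀ p ω, e p ω = 1 ∨ e p ω = -1) (hind : iIndepFun e P)
    (S : Finset ℕ) (bad : Finset ℕ → Prop) :
    P.real {ω | bad (TT S e ω)} ≤ Ex (th P e) S (fun T => if bad T then 1 else 0) := by
  have h : {ω | bad (TT S e ω)} ⊆ ⋃ T ∈ S.powerset.filter bad, {ω | TT S e ω = T} := by
    intro ω hω
    simp only [Set.mem_iUnion, Set.mem_ofPred_eq, exists_prop]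
    refine ⟨TT S e ω, ?_, rfl⟩
    rw [mem_filter, mem_powerset]
    exact ⟨filter_subset _ _, hω⟩
  calc P.real {ω | bad (TT S e ω)} ≤ P.real (⋃ T ∈ S.powerset.filter bad, {ω | TT S e ω = T}) :=
        measureReal_mono h (measure_ne_top _ _)
    _ ≤ ∑ T ∈ S.powerset.filter bad, P.real {ω | TT S e ω = T} := measureReal_biUnion_finset_le _ _
    _ = ∑ T ∈ S.powerset.filter bad, mu (th P e) S T := by
        apply sum_congr rfl
        intro T hT
        rw [mem_filter, mem_powerset] at hT
        exact law hm he hind S T hT.1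
    _ = Ex (th P e) S (fun T => if bad T then 1 else 0) := by
        unfold Ex
        rw [sum_filter]
        apply sum_congr rfl
        intro T _
        by_cases hb : bad T
        · simp [hb]
        · simp [hb]

lemma Ex_union (θ : ℕ → ℝ) (S0 S1 : Finset ℕ) (h : Disjoint S0 S1) :
    ∀ F : Finset ℕ → ℝ, Ex θ (S0 ∪ S1) F = Ex θ S0 (fun T0 => Ex θ S1 (fun T1 => F (T0 ∪ T1))) := by
  induction S0 using Finset.induction_on with
  | empty =>
    intro F
    rw [empty_union]
    unfold Ex mu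
    simp
  | insert q S0 hq ih =>
    intro F
    have hq1 : q ∉ S1 := disjoint_left.1 h (mem_insert_self _ _)
    have hd : Disjoint S0 S1 := h.mono_left (subset_insert _ _)
    rw [insert_union, Ex_insert (by rw [mem_union, not_or]; exact ⟨hq, hq1⟩), Ex_insert hq, ih hd, ih hd]
    congr 2
    apply Ex_congr
    intro T0 _
    apply Ex_congr
    intro T1 _
    rw [insert_union]

lemma Ex_union_le {θ : ℕ → ℝ} (hθ : ∀ p, 0 ≤ θ p ∧ θ p ≤ 1) (S S1 : Finset ℕ) (h : S1 ⊆ S)
    (F : Finset ℕ → ℝ) (ε : ℝ) (hF : ∀ T0 ⊆ S \ S1, Ex θ S1 (fun T1 => F (T0 ∪ T1)) ≤ ε) :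
    Ex θ S F ≤ ε := by
  have e : S = (S \ S1) ∪ S1 := (sdiff_union_of_subset h).symm
  rw [e, Ex_union θ _ _ sdiff_disjoint]
  exact (Ex_mono hθ hF).trans (Ex_const ε).le

/-- the completely multiplicative function with values `s p` at the primes (and `1` at zero) -/
noncomputable def cm (s : ℕ → ℝ) (n : ℕ) : ℝ := n.factorization.prod (fun p k => s p ^ k)

omit [MeasurableSpace Ω] in
lemma cm_eq {S : Finset ℕ} {e : ℕ → Ω → ℝ} {ω : Ω} (he : ∀ p, e p ω = 1 ∨ e p ω = -1) {m : ℕ}
    (hS : ∀ p, m.factorization p ≠ 0 → p ∈ S) :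
    cm (fun p => e p ω) m = ∏ p ∈ TT S e ω, (-1 : ℝ) ^ m.factorization p := by
  classical
  unfold cm
  rw [Finsupp.prod_of_support_subset (s := S) _ (by
    intro p hp
    exact hS p (Finsupp.mem_support_iff.1 hp)) _ (fun p _ => pow_zero _)]
  unfold TT
  rw [prod_filter]
  apply prod_congr rfl
  intro p _
  rcases he p with h | h
  · rw [h, if_neg (by norm_num), one_pow]
  · rw [h, if_pos rfl]

omit [MeasurableSpace Ω] in
lemma prod_cm {l : ℕ} {S : Finset ℕ} {e : ℕ → Ω → ℝ} {ω : Ω} (he : ∀ p, e p ω = 1 ∨ e p ω = -1)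
    (c d : Fin l → ℤ) (n V : ℕ) (hV : ∀ j, (c j * n + d j).natAbs ≤ V)
    (hS : ∀ p, p.Prime → p ≤ V → p ∈ S) :
    ∏ j, cm (fun p => e p ω) (c j * n + d j).natAbs = ∏ p ∈ TT S e ω, (-1 : ℝ) ^ ev c d p n := by
  have h : ∀ j, cm (fun p => e p ω) (c j * n + d j).natAbs =
      ∏ p ∈ TT S e ω, (-1 : ℝ) ^ (c j * n + d j).natAbs.factorization p := by
    intro j
    apply cm_eq he
    intro p hp
    have hp1 : p ∈ (c j * n + d j).natAbs.primeFactors := by
      rw [← Nat.support_factorization, Finsupp.mem_support_iff]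
      exact hp
    rw [Nat.mem_primeFactors] at hp1
    exact hS p hp1.1 ((Nat.le_of_dvd (Nat.pos_of_ne_zero hp1.2.2) hp1.2.1).trans (hV j))
  simp_rw [h]
  rw [Finset.prod_comm]
  apply prod_congr rfl
  intro p _
  rw [prod_pow_eq_pow_sum]
  rfl

end Pool.Agent.Q259.RM
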